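import Pool.Agent.Helper69.FF.St

/-! Module G1b of project FF: the section for seminorms. -/

set_option autoImplicit false

open scoped BigOperators

namespace Pool.Agent.Helper60.FF

open _root_.FF DV

theorem semi_sum_le {X ι : Type} [AddCommGroup X] [Module ℝ X] (p : Seminorm ℝ X) (A : Finset ι) (f : ι → X) :
    p (∑ i ∈ A, f i) ≤ ∑ i ∈ A, p (f i) := by
  classical
  induction A using Finset.induction_on with
  | empty => simp
  | insert a A ha ih =>
    rw [Finset.sum_insert ha, Finset.sum_insert ha]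
    exact (map_add_le_add p _ _).trans (by linarith)

theorem exists_abs_eq_norm {M : ℕ} (v : Fin M → ℝ) (hv : 0 < ‖v‖) : ∃ l, |v l| = ‖v‖ := by
  by_contra hcon
  push Not at hcon
  have h1 : ∀ l, |v l| < ‖v‖ := fun l =>
    lt_of_le_of_ne (by simpa using norm_le_pi_norm v l) (hcon l)
  have h2 : ‖v‖ < ‖v‖ := (pi_norm_lt_iff hv).2 (fun l => by simpa using h1 l)
  exact absurd h2 (lt_irrefl _)

theorem hG1b : StG1b := by
  classical
  intro X _ _ m k s M p x e θ K B a σ T₀ he he' hm hsmall hT₀ hK hσ hdis hbig hlow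
  have hK0 : 0 < K := by linarith
  obtain ⟨y, hy⟩ : ∃ y : Fin M → X, y = fun l => ∑ i ∈ B l, σ l i • x i := ⟨_, rfl⟩
  have hyl : ∀ l, y l = ∑ i ∈ B l, σ l i • x i := fun l => by rw [hy]
  -- the claim
  have hsm : ∀ (j : Fin m) (c : Fin M → Fin s → ℝ), (∀ l i, |c l i| ≤ 1) →
      p j (∑ l, ∑ i ∈ (B l).filter (fun i => ¬ θ ≤ p j (x i)), c l i • x i) ≤ e / 3 := by
    intro j c hc
    have h1 : p j (∑ l, ∑ i ∈ (B l).filter (fun i => ¬ θ ≤ p j (x i)), c l i • x i) ≤
        ∑ l, ∑ i ∈ (B l).filter (fun i => ¬ θ ≤ p j (x i)), p j (x i) := by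
      refine (semi_sum_le (p j) _ _).trans (Finset.sum_le_sum fun l _ => ?_)
      refine (semi_sum_le (p j) _ _).trans (Finset.sum_le_sum fun i _ => ?_)
      rw [map_smul_eq_mul, Real.norm_eq_abs]
      have := apply_nonneg (p j) (x i)
      nlinarith [hc l i]
    have hd : (↑(Finset.univ : Finset (Fin M)) : Set (Fin M)).PairwiseDisjoint
        (fun l => (B l).filter (fun i => ¬ θ ≤ p j (x i))) := by
      intro l _ l' _ hll
      exact Disjoint.mono (Finset.filter_subset _ _) (Finset.filter_subset _ _) (hdis l l' hll)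
    rw [← Finset.sum_biUnion hd] at h1
    refine h1.trans (le_trans ?_ (hsmall j))
    rw [← Finset.sum_filter]
    refine Finset.sum_le_sum_of_subset_of_nonneg ?_ (fun i _ _ => apply_nonneg (p j) (x i))
    intro i hi
    rw [Finset.mem_biUnion] at hi
    obtain ⟨l, _, hl⟩ := hi
    rw [Finset.mem_filter] at hl ⊢
    exact ⟨Finset.mem_univ _, not_le.1 hl.2⟩
  have hclaim1 : ∀ (j : Fin m) (c : Fin M → ℝ), (∀ l, |c l| ≤ 1) →
      p j (∑ l, c l • y l) ≤ K * (1 + e) := by
    intro j c hc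
    have hcs : ∀ l i, |c l * σ l i| ≤ 1 := by
      intro l i
      rw [abs_mul]
      exact mul_le_one₀ (hc l) (abs_nonneg _) (hσ l i)
    have h1 := hbig j (fun l i => c l * σ l i) hcs
    have h2 := hsm j (fun l i => c l * σ l i) hcs
    have h3 : ∑ l, c l • y l =
        (∑ l, ∑ i ∈ (B l).filter (fun i => θ ≤ p j (x i)), (c l * σ l i) • x i) +
        ∑ l, ∑ i ∈ (B l).filter (fun i => ¬ θ ≤ p j (x i)), (c l * σ l i) • x i := by
      rw [← Finset.sum_add_distrib]
      refine Finset.sum_congr rfl fun l _ => ?_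
      rw [Finset.sum_filter_add_sum_filter_not, hyl, Finset.smul_sum]
      exact Finset.sum_congr rfl fun i _ => smul_smul _ _ _
    rw [h3]
    refine (map_add_le_add (p j) _ _).trans ?_
    have h4 : e / 3 ≤ K * e := by nlinarith
    linarith
  have hclaim : ∀ (j : Fin m) (c : Fin M → ℝ) (D : ℝ), 0 < D → (∀ l, |c l| ≤ D) →
      p j (∑ l, c l • y l) ≤ D * (K * (1 + e)) := by
    intro j c D hD hc
    have h1 := hclaim1 j (fun l => D⁻¹ * c l) (fun l => by
      rw [abs_mul, abs_of_pos (inv_pos.mpr hD), inv_mul_le_iff₀ hD, mul_one]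
      exact hc l)
    have h2 : ∑ l, c l • y l = D • ∑ l, (D⁻¹ * c l) • y l := by
      rw [Finset.smul_sum]
      refine Finset.sum_congr rfl fun l _ => ?_
      rw [smul_smul, mul_inv_cancel_left₀ hD.ne']
    rw [h2, map_smul_eq_mul, Real.norm_of_nonneg hD.le]
    exact mul_le_mul_of_nonneg_left h1 hD.le
  -- the map
  obtain ⟨T, hT⟩ : ∃ T : Eu k →ₗ[ℝ] X, ∀ z, T z = ∑ l, T₀ z l • y l := by
    refine ⟨∑ l, ((LinearMap.proj l).comp T₀).smulRight (y l), fun z => ?_⟩
    rw [LinearMap.sum_apply]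
    rfl
  refine ⟨T, ?_, ?_⟩
  · intro z j
    rcases eq_or_ne z 0 with rfl | hz
    · simp
    · have hz' : 0 < ‖z‖ := norm_pos_iff.mpr hz
      have h1 := (hT₀ z).2
      have h2 := hclaim j (T₀ z) ((1 + e) * ‖z‖) (by positivity) (fun l => by
        have := norm_le_pi_norm (T₀ z) l
        rw [Real.norm_eq_abs] at this
        exact this.trans h1)
      rw [hT]
      refine h2.trans ?_
      have h3 : (1 + e) * (1 + e) ≤ 1 + 3 * e := by nlinarith
      calc (1 + e) * ‖z‖ * (K * (1 + e)) = K * ((1 + e) * (1 + e)) * ‖z‖ := by ring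
        _ ≤ K * (1 + 3 * e) * ‖z‖ := by gcongr
  · intro z
    rcases eq_or_ne z 0 with rfl | hz
    · exact ⟨⟨0, by omega⟩, by simp⟩
    · have hz' : 0 < ‖z‖ := norm_pos_iff.mpr hz
      have hD : 0 < ‖T₀ z‖ := lt_of_lt_of_le hz' (hT₀ z).1
      obtain ⟨l, hl⟩ := exists_abs_eq_norm (T₀ z) hD
      refine ⟨a l, ?_⟩
      have h1 : (2 * T₀ z l) • y l = T z + ∑ l', (if l' = l then T₀ z l' else - T₀ z l') • y l' := by
        rw [hT, ← Finset.sum_add_distrib]
        rw [Finset.sum_eq_single l]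
        · rw [if_pos rfl, ← add_smul]
          congr 1
          ring
        · intro l' _ hl'
          rw [if_neg hl', neg_smul, add_neg_cancel]
        · intro h
          exact absurd (Finset.mem_univ l) h
      have h2 := hclaim (a l) (fun l' => if l' = l then T₀ z l' else - T₀ z l') ‖T₀ z‖ hD (fun l' => by
        have h3 := norm_le_pi_norm (T₀ z) l'
        rw [Real.norm_eq_abs] at h3
        by_cases hll : l' = l
        · simpa only [if_pos hll] using h3
        · simpa only [if_neg hll, abs_neg] using h3)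
      have h4 : p (a l) ((2 * T₀ z l) • y l) = 2 * ‖T₀ z‖ * p (a l) (y l) := by
        rw [map_smul_eq_mul, Real.norm_eq_abs, abs_mul, hl, abs_of_pos (by norm_num : (0 : ℝ) < 2)]
      have h5 : p (a l) ((2 * T₀ z l) • y l) ≤ p (a l) (T z) + ‖T₀ z‖ * (K * (1 + e)) := by
        rw [h1]
        exact (map_add_le_add (p (a l)) _ _).trans (by linarith)
      rw [h4] at h5
      have h6 := hlow l
      rw [← hyl] at h6
      have h7 : K * (1 - e) ≤ p (a l) (y l) := by
        have h8 : 0 ≤ p (a l) (y l) := apply_nonneg _ _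
        have h11 := mul_le_mul_of_nonneg_right h6 (by linarith : (0 : ℝ) ≤ 1 - e)
        have h12 : (1 + e) * p (a l) (y l) * (1 - e) = p (a l) (y l) - e ^ 2 * p (a l) (y l) := by ring
        have h13 : 0 ≤ e ^ 2 * p (a l) (y l) := mul_nonneg (sq_nonneg e) h8
        linarith
      have h9 : K * (1 - 3 * e) * ‖z‖ ≤ K * (1 - 3 * e) * ‖T₀ z‖ := by
        apply mul_le_mul_of_nonneg_left (hT₀ z).1
        apply mul_nonneg hK0.le
        linarith
      have h10 : 2 * ‖T₀ z‖ * (K * (1 - e)) ≤ 2 * ‖T₀ z‖ * p (a l) (y l) :=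
        mul_le_mul_of_nonneg_left h7 (by positivity)
      nlinarith
end Pool.Agent.Helper60.FF
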